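import Mathlib

namespace Pool.Agent.H.MP_fa2b2f_an

open MeasureTheory Set Filter Topology
open scoped ENNReal NNReal symmDiff

variable {X : Type} [MetricSpace X] [MeasurableSpace X]

/-- the Lipschitz constant of `f` on `S` (infinite if `f` is not Lipschitz on `S`) -/
noncomputable def lipConst (f : X → ℝ) (S : Set X) : ℝ≥0∞ :=
  ⨅ (K : ℝ≥0) (_ : LipschitzOnWith K f S), (K : ℝ≥0∞)

/-- the asymptotic slope -/
noncomputable def lipa (f : X → ℝ) (x : X) : ℝ≥0∞ :=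
  ⨅ (r : ℝ) (_ : 0 < r), lipConst f (Metric.ball x r)

/-- the perimeter of `E` in the whole space -/
noncomputable def per (m : Measure X) (E : Set X) : ℝ≥0∞ :=
  ⨅ (f : ℕ → X → ℝ) (_ : ∀ n, LocallyLipschitz (f n))
    (_ : ∀ x, ∃ U ∈ 𝓝 x,
      Tendsto (fun n => ∫⁻ y in U, ‖f n y - E.indicator (fun _ => (1 : ℝ)) y‖ₑ ∂m) atTop (𝓝 0)),
    liminf (fun n => ∫⁻ x, lipa (f n) x ∂m) atTop

/-- the first functional -/
noncomputable def energy (m : Measure X) (Ω : Set X) (l : ℝ≥0) (A : Set X) : ℝ≥0∞ :=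
  per m A + l * m (Ω \ A)

/-- the second functional -/
noncomputable def energySym (m : Measure X) (Ω : Set X) (l : ℝ≥0) (A : Set X) : ℝ≥0∞ :=
  per m A + l * m (Ω ∆ A)

end Pool.Agent.H.MP_fa2b2f_an
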