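import Mathlib
import Pool.Agent.H.MP_fa2b2f_an.Defs

namespace Pool.Agent.H.MP_fa2b2f_an

open MeasureTheory Set Filter Topology
open scoped ENNReal NNReal symmDiff

noncomputable def w (x : ℝ) : ℝ≥0∞ :=
  if x ≤ 0 then 1 else ENNReal.ofReal (min 1 (min x |1 - x|))

noncomputable def mu : Measure ℝ := Measure.dirac 0 + volume.withDensity w

lemma w_meas : Measurable w := by
  unfold w
  refine Measurable.ite measurableSet_Iic measurable_const ?_
  fun_prop

lemma w_le (x : ℝ) : w x ≤ 1 := by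
  unfold w
  split_ifs
  · exact le_rfl
  · exact ENNReal.ofReal_le_one.2 (min_le_left _ _)

lemma dens_le (S : Set ℝ) (hS : MeasurableSet S) (c : ℝ≥0∞) (h : ∀ x ∈ S, w x ≤ c) :
    volume.withDensity w S ≤ c * volume S := by
  rw [withDensity_apply _ hS]
  calc ∫⁻ x in S, w x ≤ ∫⁻ _ in S, c := setLIntegral_mono' hS h
    _ = c * volume S := by simp

lemma mu_of_not_mem (S : Set ℝ) (hS : MeasurableSet S) (h0 : (0 : ℝ) ∉ S) :
    mu S = volume.withDensity w S := by
  simp [mu, Measure.dirac_apply' _ hS, h0]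

lemma dens_left (S : Set ℝ) (hS : MeasurableSet S) (h : S ⊆ Iic 0) :
    volume.withDensity w S = volume S := by
  rw [withDensity_apply _ hS]
  have : ∫⁻ x in S, w x = ∫⁻ _ in S, (1 : ℝ≥0∞) :=
    setLIntegral_congr_fun hS fun x hx => by simp [w, show x ≤ 0 from h hx]
  simp [this]

lemma mu_bounded (B : Set ℝ) (hB : Bornology.IsBounded B) : mu B < ⊤ := by
  obtain ⟨R, hR⟩ := hB.subset_closedBall 0
  refine lt_of_le_of_lt (measure_mono hR) ?_
  have h1 := dens_le (Metric.closedBall (0 : ℝ) R) measurableSet_closedBall 1 fun x _ => w_le x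
  have h2 : volume (Metric.closedBall (0 : ℝ) R) < ⊤ := measure_closedBall_lt_top
  simp only [mu, Measure.add_apply]
  refine ENNReal.add_lt_top.2 ⟨measure_lt_top _ _, lt_of_le_of_lt h1 (by simpa using h2)⟩

lemma mu_openPos : mu.IsOpenPosMeasure := by
  have h1 : (volume : Measure ℝ) ≪ volume.withDensity w := by
    refine withDensity_absolutelyContinuous' w_meas.aemeasurable ?_
    have : ∀ᵐ x : ℝ, x ≠ 1 := by simp [ae_iff]
    filter_upwards [this] with x hx
    unfold w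
    split_ifs with h
    · exact one_ne_zero
    · push Not at h
      have : 0 < |1 - x| := abs_pos.2 (sub_ne_zero.2 hx.symm)
      simp only [ne_eq, ENNReal.ofReal_eq_zero, not_le]
      positivity
  have h2 : (volume : Measure ℝ) ≪ mu :=
    h1.trans (Measure.absolutelyContinuous_of_le (Measure.le_add_left le_rfl))
  exact h2.isOpenPosMeasure

lemma mu_Ioc : mu (Ioc (-1) 0) = 2 := by
  simp only [mu, Measure.add_apply]
  rw [dens_left _ measurableSet_Ioc Ioc_subset_Iic_self, Measure.dirac_apply' _ measurableSet_Ioc]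
  simp
  norm_num

lemma mu_Icc : mu (Icc (-3) (-1)) = 2 := by
  rw [mu_of_not_mem _ measurableSet_Icc (by norm_num),
    dens_left _ measurableSet_Icc (fun x hx => by have := hx.2; simp only [mem_Iic]; linarith)]
  simp
  norm_num

lemma lipa_le {f : ℝ → ℝ} {x r : ℝ} (hr : 0 < r) {K : ℝ≥0}
    (h : LipschitzOnWith K f (Metric.ball x r)) : lipa f x ≤ K :=
  iInf₂_le_of_le r hr (iInf₂_le K h)

lemma deriv_le_lipa (f : ℝ → ℝ) (x : ℝ) : ‖deriv f x‖ₑ ≤ lipa f x := by
  refine le_iInf₂ fun r hr => le_iInf₂ fun K hK => ?_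
  have := norm_deriv_le_of_lipschitzOn (Metric.ball_mem_nhds x hr) hK
  rw [← ofReal_norm, ← ENNReal.ofReal_coe_nnreal]
  exact ENNReal.ofReal_le_ofReal this

lemma jump_le {f : ℝ → ℝ} (hf : LocallyLipschitz f) {a b : ℝ} (hab : a ≤ b) (hb : b ≤ 0) :
    ‖f b - f a‖ₑ ≤ ∫⁻ x, lipa f x ∂mu := by
  obtain ⟨K, hK⟩ := (hf.locallyLipschitzOn (s := uIcc a b)).exists_lipschitzOnWith_of_compact
    isCompact_uIcc
  rw [← hK.absolutelyContinuousOnInterval.integral_deriv_eq_sub,
    intervalIntegral.integral_of_le hab]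
  have e : (volume : Measure ℝ).restrict (Ioc a b) ≤ mu := by
    rw [Measure.le_iff]
    intro S hS
    rw [Measure.restrict_apply hS, ← dens_left _ (hS.inter measurableSet_Ioc)
      (fun x hx => hx.2.2.trans hb)]
    simp only [mu, Measure.add_apply]
    exact le_add_left (measure_mono inter_subset_left)
  calc ‖∫ x in Ioc a b, deriv f x‖ₑ ≤ ∫⁻ x in Ioc a b, ‖deriv f x‖ₑ :=
        enorm_integral_le_lintegral_enorm _
    _ ≤ ∫⁻ x, lipa f x ∂mu := lintegral_mono' e (deriv_le_lipa f)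

lemma jump_le' {f : ℝ → ℝ} (hf : LocallyLipschitz f) {a b : ℝ} (ha : a ≤ 0) (hb : b ≤ 0) :
    ‖f b - f a‖ₑ ≤ ∫⁻ x, lipa f x ∂mu := by
  rcases le_total a b with h | h
  · exact jump_le hf h hb
  · rw [enorm_sub_rev]; exact jump_le hf h ha

lemma per_ge {A : Set ℝ} (hA : MeasurableSet A) (R : ℝ) (h1 : mu (Icc (-R) 0 ∩ A) ≠ 0)
    (h2 : mu (Icc (-R) 0 \ A) ≠ 0) : 1 / 2 ≤ per mu A := by
  refine le_iInf fun f => le_iInf fun hf => le_iInf fun hc => ?_
  have hJ : Tendsto (fun n => ∫⁻ y in Icc (-R) 0,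
      ‖f n y - A.indicator (fun _ => (1 : ℝ)) y‖ₑ ∂mu) atTop (𝓝 0) := by
    refine (isCompact_Icc (a := -R) (b := 0)).induction_on
      (p := fun S => Tendsto (fun n => ∫⁻ y in S,
        ‖f n y - A.indicator (fun _ => (1 : ℝ)) y‖ₑ ∂mu) atTop (𝓝 0)) (by simp) ?_ ?_ ?_
    · intro s t hst ht
      exact tendsto_of_tendsto_of_tendsto_of_le_of_le tendsto_const_nhds ht (fun _ => zero_le)
        fun n => lintegral_mono_set hst
    · intro s t hs ht
      have := hs.add ht
      rw [add_zero] at this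
      exact tendsto_of_tendsto_of_tendsto_of_le_of_le tendsto_const_nhds this (fun _ => zero_le)
        fun n => lintegral_union_le _ _ _
    · intro x _
      obtain ⟨U, hU, h⟩ := hc x
      exact ⟨U, mem_nhdsWithin_of_mem_nhds hU, h⟩
  have hq : ENNReal.ofReal (1 / 4) ≠ 0 := by simp
  have e1 := hJ.eventually (gt_mem_nhds (pos_iff_ne_zero.2 (mul_ne_zero hq h1)))
  have e2 := hJ.eventually (gt_mem_nhds (pos_iff_ne_zero.2 (mul_ne_zero hq h2)))
  refine le_liminf_of_le (by isBoundedDefault) ?_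
  filter_upwards [e1, e2] with n n1 n2
  have key : ∀ S : Set ℝ, MeasurableSet S → S ⊆ Icc (-R) 0 →
      ∫⁻ y in Icc (-R) 0, ‖f n y - A.indicator (fun _ => (1 : ℝ)) y‖ₑ ∂mu <
        ENNReal.ofReal (1 / 4) * mu S →
      ∃ y ∈ S, |f n y - A.indicator (fun _ => (1 : ℝ)) y| < 1 / 4 := by
    intro S hS hSJ hlt
    by_contra hcon
    push Not at hcon
    refine absurd hlt (not_lt.2 ?_)
    calc ENNReal.ofReal (1 / 4) * mu S = ∫⁻ _ in S, ENNReal.ofReal (1 / 4) ∂mu := by simp
      _ ≤ ∫⁻ y in S, ‖f n y - A.indicator (fun _ => (1 : ℝ)) y‖ₑ ∂mu := by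
          refine setLIntegral_mono' hS fun y hy => ?_
          rw [← ofReal_norm]
          exact ENNReal.ofReal_le_ofReal (hcon y hy)
      _ ≤ _ := lintegral_mono_set hSJ
  obtain ⟨a, ha, ha'⟩ := key _ (measurableSet_Icc.inter hA) inter_subset_left n1
  obtain ⟨b, hb, hb'⟩ := key _ (measurableSet_Icc.diff hA) sdiff_subset n2
  rw [indicator_of_mem ha.2] at ha'
  rw [indicator_of_notMem hb.2, sub_zero] at hb'
  refine le_trans ?_ (jump_le' (hf n) hb.1.2 ha.1.2)
  have : (1 / 2 : ℝ≥0∞) = ENNReal.ofReal (1 / 2) := by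
    rw [ENNReal.ofReal_div_of_pos (by norm_num)]; simp
  rw [this, ← ofReal_norm]
  refine ENNReal.ofReal_le_ofReal (le_trans ?_ (le_abs_self _))
  linarith [(abs_lt.1 ha').1, (abs_lt.1 hb').2]

noncomputable def cut (N : ℝ) (x : ℝ) : ℝ := max 0 (min 1 (N * min x (1 - x) - 1))

lemma cut_lip (N : ℝ≥0) : LipschitzWith N (cut N) := by
  have h1 : LipschitzWith 1 (fun x : ℝ => min x (1 - x)) := by
    have a : LipschitzWith 1 (fun x : ℝ => 1 - x) :=
      LipschitzWith.of_dist_le_mul fun x y => by rw [dist_sub_left]; simp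
    simpa using LipschitzWith.id.min a
  have h2 : LipschitzWith N (fun x : ℝ => (N : ℝ) * min x (1 - x) - 1) := by
    refine LipschitzWith.of_dist_le_mul fun x y => ?_
    have := h1.dist_le_mul x y
    rw [dist_sub_right, Real.dist_eq, ← mul_sub, abs_mul, abs_of_nonneg N.coe_nonneg]
    refine mul_le_mul_of_nonneg_left ?_ N.coe_nonneg
    simpa [Real.dist_eq] using this
  exact (h2.const_min 1).const_max 0

/-- the transition region -/
def tr (N : ℝ) : Set ℝ := {x | 1 ≤ N * min x (1 - x) ∧ N * min x (1 - x) ≤ 2}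

/-- the collar -/
def col (N : ℝ) : Set ℝ := Ioc 0 (2 / N) ∪ Ico (1 - 2 / N) 1

lemma col_meas (N : ℝ) : MeasurableSet (col N) := measurableSet_Ioc.union measurableSet_Ico

lemma col_vol {N : ℝ} (hN : 0 < N) : volume (col N) ≤ ENNReal.ofReal (4 / N) := by
  refine (measure_union_le _ _).trans ?_
  rw [Real.volume_Ioc, Real.volume_Ico, ← ENNReal.ofReal_add (by simp; positivity)
    (by simp; positivity)]
  exact ENNReal.ofReal_le_ofReal (le_of_eq (by ring))

lemma mem_col {N x : ℝ} (hN : 0 < N) (h0 : 0 < min x (1 - x)) (h2 : N * min x (1 - x) ≤ 2) :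
    x ∈ col N := by
  have a := lt_min_iff.1 h0
  have h3 : min x (1 - x) ≤ 2 / N := by rw [le_div_iff₀ hN]; linarith
  rcases min_le_iff.1 h3 with h | h
  · exact Or.inl ⟨a.1, h⟩
  · exact Or.inr ⟨by linarith, by linarith [a.2]⟩

lemma tr_closed (N : ℝ) : IsClosed (tr N) := by
  have hc : Continuous fun y : ℝ => N * min y (1 - y) := by fun_prop
  exact (isClosed_le continuous_const hc).inter (isClosed_le hc continuous_const)

lemma lipa_cut (N : ℝ≥0) (x : ℝ) :
    lipa (cut N) x ≤ (tr N).indicator (fun _ => (N : ℝ≥0∞)) x := by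
  by_cases hx : x ∈ tr N
  · rw [indicator_of_mem hx]
    exact lipa_le one_pos (cut_lip N).lipschitzOnWith
  · rw [indicator_of_notMem hx]
    have hc : Continuous fun y : ℝ => (N : ℝ) * min y (1 - y) := by fun_prop
    have : ∃ c, ∀ᶠ y in 𝓝 x, cut N y = c := by
      rcases not_and_or.1 hx with h | h
      · refine ⟨0, (hc.continuousAt.eventually (gt_mem_nhds (not_le.1 h))).mono fun y hy => ?_⟩
        exact max_eq_left ((min_le_right _ _).trans (by linarith))
      · refine ⟨1, (hc.continuousAt.eventually (lt_mem_nhds (not_le.1 h))).mono fun y hy => ?_⟩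
        unfold cut
        rw [min_eq_left (by linarith), max_eq_right zero_le_one]
    obtain ⟨c, hc⟩ := this
    obtain ⟨r, hr, h⟩ := Metric.eventually_nhds_iff_ball.1 hc
    have : LipschitzOnWith 0 (cut N) (Metric.ball x r) := by
      refine LipschitzOnWith.of_dist_le_mul fun y hy z hz => ?_
      rw [h y hy, h z hz]
      simp
    simpa using lipa_le hr this

lemma energy_cut (N : ℝ≥0) (hN : 0 < N) :
    ∫⁻ x, lipa (cut N) x ∂mu ≤ ENNReal.ofReal (8 / N) := by
  have hN' : (0 : ℝ) < N := hN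
  have hm := (tr_closed N).measurableSet
  have pos : ∀ x ∈ tr N, 0 < min x (1 - x) := fun x hx =>
    (mul_pos_iff_of_pos_left hN').1 (lt_of_lt_of_le one_pos hx.1)
  have h0 : (0 : ℝ) ∉ tr N := fun h => by simpa using pos 0 h
  have h1 : mu (tr N) ≤ ENNReal.ofReal (2 / N) * ENNReal.ofReal (4 / N) := by
    rw [mu_of_not_mem _ hm h0]
    refine (dens_le _ hm (ENNReal.ofReal (2 / N)) fun x hx => ?_).trans ?_
    · have a := lt_min_iff.1 (pos x hx)
      unfold w
      rw [if_neg (not_le.2 a.1), abs_of_pos a.2]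
      refine ENNReal.ofReal_le_ofReal ((min_le_right _ _).trans ?_)
      rw [le_div_iff₀ hN']
      linarith [hx.2]
    · gcongr
      exact (measure_mono fun x hx => mem_col hN' (pos x hx) hx.2).trans (col_vol hN')
  calc ∫⁻ x, lipa (cut N) x ∂mu ≤ ∫⁻ x, (tr N).indicator (fun _ => (N : ℝ≥0∞)) x ∂mu :=
        lintegral_mono (lipa_cut N)
    _ = N * mu (tr N) := by rw [lintegral_indicator_const hm]
    _ ≤ N * (ENNReal.ofReal (2 / N) * ENNReal.ofReal (4 / N)) := by gcongr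
    _ = ENNReal.ofReal (8 / N) := by
        rw [← ENNReal.ofReal_coe_nnreal, ← ENNReal.ofReal_mul (by positivity),
          ← ENNReal.ofReal_mul (by positivity)]
        congr 1
        field_simp
        norm_num

lemma err_cut (N : ℝ) (hN : 0 < N) :
    ∫⁻ y, ‖cut N y - (Ioo (0 : ℝ) 1).indicator (fun _ => (1 : ℝ)) y‖ₑ ∂mu ≤
      ENNReal.ofReal (4 / N) := by
  have h0 : (0 : ℝ) ∉ col N ∩ Ioo 0 1 := fun h => lt_irrefl _ h.2.1
  have hm : MeasurableSet (col N ∩ Ioo 0 1) := (col_meas N).inter measurableSet_Ioo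
  have h1 : ∀ y, ‖cut N y - (Ioo (0 : ℝ) 1).indicator (fun _ => (1 : ℝ)) y‖ₑ ≤
      (col N ∩ Ioo 0 1).indicator (fun _ => (1 : ℝ≥0∞)) y := by
    intro y
    by_cases hy : y ∈ Ioo (0 : ℝ) 1
    · rw [indicator_of_mem hy]
      by_cases hc : y ∈ col N
      · rw [indicator_of_mem (show y ∈ col N ∩ Ioo 0 1 from ⟨hc, hy⟩), ← ofReal_norm,
          ENNReal.ofReal_le_one, Real.norm_eq_abs, abs_le]
        have a1 : 0 ≤ cut N y := le_max_left _ _
        have a2 : cut N y ≤ 1 := max_le zero_le_one (min_le_left _ _)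
        constructor <;> linarith
      · have : 2 < N * min y (1 - y) :=
          not_le.1 fun h => hc (mem_col hN (lt_min hy.1 (by linarith [hy.2])) h)
        have : cut N y = 1 := by
          unfold cut
          rw [min_eq_left (by linarith), max_eq_right zero_le_one]
        simp [this]
    · have h2 : min y (1 - y) ≤ 0 := by
        by_contra hcon
        have := lt_min_iff.1 (not_le.1 hcon)
        exact hy ⟨this.1, by linarith [this.2]⟩
      have : cut N y = 0 :=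
        max_eq_left ((min_le_right _ _).trans (by nlinarith))
      simp [this, indicator_of_notMem hy]
  calc _ ≤ ∫⁻ y, (col N ∩ Ioo 0 1).indicator (fun _ => (1 : ℝ≥0∞)) y ∂mu := lintegral_mono h1
    _ = mu (col N ∩ Ioo 0 1) := by rw [lintegral_indicator_const hm, one_mul]
    _ ≤ 1 * volume (col N ∩ Ioo 0 1) := by
        rw [mu_of_not_mem _ hm h0]; exact dens_le _ hm 1 fun x _ => w_le x
    _ ≤ ENNReal.ofReal (4 / N) := by
        rw [one_mul]; exact (measure_mono inter_subset_left).trans (col_vol hN)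

lemma tend (c : ℝ) : Tendsto (fun n : ℕ => ENNReal.ofReal (c / ((n : ℝ) + 1))) atTop (𝓝 0) := by
  have := ENNReal.tendsto_ofReal ((tendsto_one_div_add_atTop_nhds_zero_nat (𝕜 := ℝ)).const_mul c)
  simpa [div_eq_mul_inv] using this

lemma per_E : per mu (Ioo 0 1) = 0 := by
  refine le_antisymm ?_ zero_le
  let f : ℕ → ℝ → ℝ := fun n => cut ((n + 1 : ℝ≥0) : ℝ)
  refine iInf_le_of_le f (iInf_le_of_le (fun n => (cut_lip _).locallyLipschitz)
    (iInf_le_of_le (fun x => ⟨univ, univ_mem, ?_⟩) ?_))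
  · refine tendsto_of_tendsto_of_tendsto_of_le_of_le tendsto_const_nhds (tend 4)
      (fun _ => zero_le) fun n => ?_
    simpa [f] using err_cut ((n : ℝ) + 1) (by positivity)
  · refine le_of_eq (Tendsto.liminf_eq ?_)
    refine tendsto_of_tendsto_of_tendsto_of_le_of_le tendsto_const_nhds (tend 8)
      (fun _ => zero_le) fun n => ?_
    simpa [f] using energy_cut ((n : ℝ≥0) + 1) (by positivity)

lemma symm_of_subset {S A : Set ℝ} (h : A ⊆ S) : S ∆ A = S \ A := by
  rw [Set.symmDiff_def, sdiff_eq_empty.2 h, union_empty]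

lemma E_sub : Ioo (0 : ℝ) 1 ⊆ Ioo (-1) 1 := Ioo_subset_Ioo_left (by norm_num)

lemma val_E : energySym mu (Ioo (-1) 1) (1 / 4) (Ioo 0 1) = (1 / 4 : ℝ≥0) * 2 := by
  have : Ioo (-1 : ℝ) 1 \ Ioo 0 1 = Ioc (-1) 0 := by
    ext x
    simp only [Set.mem_sdiff, mem_Ioo, mem_Ioc, not_and, not_lt]
    constructor
    · rintro ⟨⟨a, b⟩, c⟩
      exact ⟨a, not_lt.1 fun h => absurd (c h) (not_le.2 b)⟩
    · rintro ⟨a, b⟩
      exact ⟨⟨a, by linarith⟩, fun h => by linarith⟩
  rw [energySym, per_E, zero_add, symm_of_subset E_sub, this, mu_Ioc]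

theorem min_sym (A : Set ℝ) (hA : MeasurableSet A) :
    energySym mu (Ioo (-1) 1) (1 / 4) (Ioo 0 1) ≤ energySym mu (Ioo (-1) 1) (1 / 4) A := by
  rw [val_E, energySym]
  by_cases h1 : mu (Icc (-3) 0 ∩ A) = 0
  · refine le_add_left ?_
    gcongr
    rw [← mu_Ioc]
    refine measure_mono_ae ?_
    filter_upwards [measure_eq_zero_iff_ae_notMem.1 h1] with x hx hx'
    have hx'' : x ∈ Ioc (-1 : ℝ) 0 := hx'
    exact Or.inl ⟨⟨hx''.1, by linarith [hx''.2]⟩,
      fun h => hx ⟨⟨by linarith [hx''.1], hx''.2⟩, h⟩⟩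
  by_cases h2 : mu (Icc (-3) 0 \ A) = 0
  · refine le_add_left ?_
    gcongr
    rw [← mu_Icc]
    refine measure_mono_ae ?_
    filter_upwards [measure_eq_zero_iff_ae_notMem.1 h2] with x hx hx'
    have hx'' : x ∈ Icc (-3 : ℝ) (-1) := hx'
    refine Or.inr ⟨?_, fun h => by linarith [h.1, hx''.2]⟩
    by_contra h
    exact hx ⟨⟨hx''.1, by linarith [hx''.2]⟩, h⟩
  refine le_add_right (le_trans (le_of_eq ?_) (per_ge hA 3 h1 h2))
  have : ((1 / 4 : ℝ≥0) : ℝ≥0∞) * 2 = ((1 / 2 : ℝ≥0) : ℝ≥0∞) := by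
    rw [show (2 : ℝ≥0∞) = ((2 : ℝ≥0) : ℝ≥0∞) from rfl, ← ENNReal.coe_mul]
    norm_num
  rw [this]
  simp

theorem min_sub (A : Set ℝ) (hA : MeasurableSet A) (h : A ⊆ Ioo (-1) 1) :
    energy mu (Ioo (-1) 1) (1 / 4) (Ioo 0 1) ≤ energy mu (Ioo (-1) 1) (1 / 4) A := by
  have := min_sym A hA
  rwa [energySym, energySym, symm_of_subset E_sub, symm_of_subset h] at this

lemma fin_sym : energySym mu (Ioo (-1) 1) (1 / 4) (Ioo 0 1) < ⊤ := by
  rw [val_E]
  exact ENNReal.mul_lt_top ENNReal.coe_lt_top (by simp)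

lemma fin_sub : energy mu (Ioo (-1) 1) (1 / 4) (Ioo 0 1) < ⊤ := by
  have := fin_sym
  rwa [energySym, symm_of_subset E_sub] at this

lemma frontier_null : mu (frontier (Ioo (-1 : ℝ) 1)) = 0 := by
  rw [frontier_Ioo (by norm_num)]
  have hm : MeasurableSet ({-1, 1} : Set ℝ) := (Set.toFinite _).measurableSet
  rw [mu_of_not_mem _ hm (by norm_num)]
  refine le_antisymm ((dens_le _ hm 1 fun x _ => w_le x).trans (le_of_eq ?_)) zero_le
  rw [one_mul]
  exact (Set.toFinite _).measure_zero _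

theorem no_closed (C : Set ℝ) (hC : IsClosed C) : 0 < mu ((Ioo 0 1 ∆ C) ∩ Ioo (-1) 1) := by
  by_cases h0 : (0 : ℝ) ∈ C
  · have : ({0} : Set ℝ) ⊆ (Ioo 0 1 ∆ C) ∩ Ioo (-1) 1 := by
      rintro _ rfl
      exact ⟨Or.inr ⟨h0, fun h => lt_irrefl _ h.1⟩, by norm_num⟩
    refine lt_of_lt_of_le ?_ (measure_mono this)
    simp [mu]
  · have := mu_openPos
    have ho : IsOpen (Ioo (0 : ℝ) 1 \ C) := isOpen_Ioo.sdiff hC
    have hne : (Ioo (0 : ℝ) 1 \ C).Nonempty := by
      have hcl : (0 : ℝ) ∈ closure (Ioo (0 : ℝ) 1) := by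
        rw [closure_Ioo (by norm_num)]; norm_num
      obtain ⟨x, hx1, hx2⟩ := mem_closure_iff.1 hcl Cᶜ hC.isOpen_compl h0
      exact ⟨x, hx2, hx1⟩
    exact lt_of_lt_of_le (ho.measure_pos mu hne)
      (measure_mono fun x hx => ⟨Or.inl hx, E_sub hx.1⟩)

end Pool.Agent.H.MP_fa2b2f_an
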